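import Mathlib
import Pool.Agent.Lib.ModularZP.Comp
import Pool.Agent.Lib.ModularZP.Criterion
import Pool.Agent.Lib.ModularZP.GoodPrime
import Pool.Agent.Lib.ModularZP.Place

/-!
Members of linear systems on a curve: integral members without common zeros, uniformly at all
composites of places with suitable valuation rings of `ℂ`, and the values of ratios of members
which are `p`-adically close to multiples of one member.
-/

set_option autoImplicit false

open Pool.Agent.Lib.ModularZP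

namespace Pool.Agent.ZPRC

variable {K : Type*} [Field K] [Algebra ℂ K] {n N : ℕ}

/-- linear combination with complex coefficients -/
def lc (b : Fin N → K) (a : Fin N → ℂ) : K := ∑ k, algebraMap ℂ K (a k) * b k

lemma lc_div (b : Fin N → K) (a : Fin N → ℂ) (d : K) : lc b a / d = ∑ k, algebraMap ℂ K (a k) * (b k / d) := by
  rw [lc, Finset.sum_div]
  exact Finset.sum_congr rfl fun k _ => mul_div_assoc _ _ _

/-- few powers vectors are orthogonal to a given non-zero vector -/
lemma fin_bad {F : Type*} [Field F] [CharZero F] (z : Fin N → F) (h : z ≠ 0) :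
    {t : ℕ | ∑ k : Fin N, (t : F) ^ (k : ℕ) * z k = 0}.Finite := by
  classical
  set q : Polynomial F := ∑ k : Fin N, Polynomial.monomial (k : ℕ) (z k) with hq
  have hq0 : q ≠ 0 := by
    intro h0
    apply h
    funext j
    have h1 : q.coeff (j : ℕ) = z j := by
      rw [hq, Polynomial.finsetSum_coeff, Finset.sum_eq_single j]
      · rw [Polynomial.coeff_monomial, if_pos rfl]
      · intro i _ hij
        rw [Polynomial.coeff_monomial, if_neg]
        intro h2
        exact hij (Fin.ext h2)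
      · intro h2
        exact absurd (Finset.mem_univ _) h2
    rw [← h1, h0, Polynomial.coeff_zero, Pi.zero_apply]
  refine (q.roots.toFinset.finite_toSet.preimage (f := fun t : ℕ => (t : F)) (Nat.cast_injective.injOn)).subset ?_
  intro t ht
  rw [Set.mem_preimage, Finset.mem_coe, Multiset.mem_toFinset, Polynomial.mem_roots hq0, Polynomial.IsRoot.def,
    hq, Polynomial.eval_finsetSum]
  rw [Set.mem_ofPred_eq] at ht
  rw [← ht]
  refine Finset.sum_congr rfl fun k _ => ?_
  rw [Polynomial.eval_monomial, mul_comm]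

/-- an integral vector avoiding finitely many conditions -/
lemma exists_avoid (T : Finset (Fin N → ℂ)) (hT : ∀ z ∈ T, z ≠ 0) (b : Fin N → K) (hb : ∃ k, b k ≠ 0) :
    ∃ v : Fin N → ℤ, (∀ z ∈ T, ∑ k, (v k : ℂ) * z k ≠ 0) ∧ lc b (fun k => (v k : ℂ)) ≠ 0 := by
  have hK0 : CharZero K := charZero_of_injective_algebraMap (algebraMap ℂ K).injective
  have h1 : (⋃ z ∈ T, {t : ℕ | ∑ k : Fin N, (t : ℂ) ^ (k : ℕ) * z k = 0}).Finite :=
    T.finite_toSet.biUnion fun z hz => fin_bad z (hT z hz)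
  have h2 : {t : ℕ | ∑ k : Fin N, (t : K) ^ (k : ℕ) * b k = 0}.Finite := by
    obtain ⟨k, hk⟩ := hb
    exact fin_bad b fun h0 => hk (by rw [h0, Pi.zero_apply])
  obtain ⟨t, ht⟩ := (h1.union h2).exists_notMem
  rw [Set.mem_union, not_or] at ht
  refine ⟨fun k => (t : ℤ) ^ (k : ℕ), fun z hz h0 => ht.1 ?_, fun h0 => ht.2 ?_⟩
  · rw [Set.mem_iUnion₂]
    refine ⟨z, hz, ?_⟩
    rw [Set.mem_ofPred_eq, ← h0]
    refine Finset.sum_congr rfl fun k _ => ?_
    push_cast
    rfl
  · rw [Set.mem_ofPred_eq, ← h0, lc]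
    refine Finset.sum_congr rfl fun k _ => ?_
    push_cast
    simp

/-- the values of the ratios of a linear system near the zeros of `l`, seen as a section -/
lemma pair_data (htr : Algebra.trdeg ℂ K = 1) (l : K) (b b' : Fin N → K) :
    ∃ (S : Finset ℂ) (T : Finset (Fin N → ℂ)), (∀ z ∈ T, z ≠ 0) ∧
      ∀ W : ValuationSubring K, (∀ s ∈ S, algebraMap ℂ K s ∈ W) → l ≠ 0 → ∀ k j, b k ≠ 0 → b' j ≠ 0 →
        (∀ m, b' m / b' j ∈ W) → W.valuation (l / b k) < 1 →
        ∃ z ∈ T, ∀ m, W.valuation (b' m / b' j - algebraMap ℂ K (z m)) < 1 := by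
  classical
  have h1 : ∀ k j m : Fin N, ∃ S Z : Finset ℂ, ∀ W : ValuationSubring K, (∀ s ∈ S, algebraMap ℂ K s ∈ W) →
      l ≠ 0 → b k ≠ 0 → W.valuation (l / b k) < 1 → b' m / b' j ∈ W →
      ∃ z ∈ Z, W.valuation (b' m / b' j - algebraMap ℂ K z) < 1 := by
    intro k j m
    by_cases h0 : l / b k = 0
    · refine ⟨∅, ∅, fun W _ hl hk => ?_⟩
      exact absurd h0 (div_ne_zero hl hk)
    · obtain ⟨S, Z, h⟩ := value_cert htr h0 (b' m / b' j)
      exact ⟨S, Z, fun W hW _ _ h1 h2 => h W hW h1 h2⟩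
  choose S Z h using h1
  refine ⟨Finset.univ.biUnion fun k => Finset.univ.biUnion fun j => Finset.univ.biUnion fun m => S k j m,
    Finset.univ.biUnion fun k => Finset.univ.biUnion fun j =>
      Fintype.piFinset fun m => if m = j then {1} else Z k j m, ?_, ?_⟩
  · intro z hz h0
    rw [Finset.mem_biUnion] at hz
    obtain ⟨k, _, hz⟩ := hz
    rw [Finset.mem_biUnion] at hz
    obtain ⟨j, _, hz⟩ := hz
    rw [Fintype.mem_piFinset] at hz
    have h2 := hz j
    rw [if_pos rfl, Finset.mem_singleton, h0, Pi.zero_apply] at h2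
    exact zero_ne_one h2
  · intro W hW hl k j hk hj hmem hlt
    have h2 : ∀ m, ∃ z, (z ∈ if m = j then ({1} : Finset ℂ) else Z k j m) ∧
        W.valuation (b' m / b' j - algebraMap ℂ K z) < 1 := by
      intro m
      by_cases hm : m = j
      · refine ⟨1, by rw [if_pos hm]; exact Finset.mem_singleton_self _, ?_⟩
        rw [hm, div_self hj, map_one, sub_self, map_zero]
        exact zero_lt_one
      · rw [if_neg hm]
        refine h k j m W (fun s hs => hW s ?_) hl hk hlt (hmem m)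
        simp only [Finset.mem_biUnion, Finset.mem_univ, true_and]
        exact ⟨k, j, m, hs⟩
    choose z hz1 hz2 using h2
    refine ⟨z, ?_, hz2⟩
    rw [Finset.mem_biUnion]
    refine ⟨k, Finset.mem_univ _, ?_⟩
    rw [Finset.mem_biUnion]
    exact ⟨j, Finset.mem_univ _, Fintype.mem_piFinset.mpr hz1⟩

lemma int_mem (W : ValuationSubring K) (m : ℤ) : algebraMap ℂ K (m : ℂ) ∈ W := by
  rw [map_intCast]
  exact intCast_mem W m

lemma not_small {W : ValuationSubring K} {w : ℂ} (hw0 : w ≠ 0) (hw : algebraMap ℂ K w⁻¹ ∈ W) :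
    ¬ W.valuation (algebraMap ℂ K w) < 1 := by
  intro h
  have h1 := val_mul_lt hw h
  rw [← map_mul, inv_mul_cancel₀ hw0, map_one, map_one] at h1
  exact lt_irrefl _ h1

/-- the congruence of a member -/
lemma lc_cong {W : ValuationSubring K} {b : Fin N → K} {j : Fin N} {z : Fin N → ℂ} (v : Fin N → ℤ)
    (h : ∀ m, W.valuation (b m / b j - algebraMap ℂ K (z m)) < 1) :
    W.valuation (lc b (fun k => (v k : ℂ)) / b j - algebraMap ℂ K (∑ k, (v k : ℂ) * z k)) < 1 := by
  have h1 : lc b (fun k => (v k : ℂ)) / b j - algebraMap ℂ K (∑ k, (v k : ℂ) * z k) =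
      ∑ k, algebraMap ℂ K (v k : ℂ) * (b k / b j - algebraMap ℂ K (z k)) := by
    rw [lc_div, map_sum, ← Finset.sum_sub_distrib]
    refine Finset.sum_congr rfl fun k _ => ?_
    rw [map_mul]
    ring
  rw [h1]
  refine W.valuation.map_sum_lt (one_ne_zero) fun k _ => ?_
  exact val_mul_lt (int_mem W _) (h k)

/-- integral members of the systems, no two of which have a common zero -/
theorem exists_lam (htr : Algebra.trdeg ℂ K = 1) (b : Fin n → Fin N → K) (hb : ∀ i, ∃ k, b i k ≠ 0) :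
    ∃ (v : Fin n → Fin N → ℤ) (S : Finset ℂ), (∀ i, lc (b i) (fun k => (v i k : ℂ)) ≠ 0) ∧
      ∀ W : ValuationSubring K, (∀ s ∈ S, algebraMap ℂ K s ∈ W) → ∀ i j, i ≠ j → ∀ k l,
        b i k ≠ 0 → b j l ≠ 0 → (∀ m, b i m / b i k ∈ W) → (∀ m, b j m / b j l ∈ W) →
        W.valuation (lc (b i) (fun k => (v i k : ℂ)) / b i k) < 1 →
        W.valuation (lc (b j) (fun k => (v j k : ℂ)) / b j l) < 1 → False := by
  classical
  have main : ∀ s : Finset (Fin n), ∃ (v : Fin n → Fin N → ℤ) (S : Finset ℂ),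
      (∀ i ∈ s, lc (b i) (fun k => (v i k : ℂ)) ≠ 0) ∧
      ∀ W : ValuationSubring K, (∀ x ∈ S, algebraMap ℂ K x ∈ W) → ∀ i ∈ s, ∀ j ∈ s, i ≠ j → ∀ k l,
        b i k ≠ 0 → b j l ≠ 0 → (∀ m, b i m / b i k ∈ W) → (∀ m, b j m / b j l ∈ W) →
        W.valuation (lc (b i) (fun k => (v i k : ℂ)) / b i k) < 1 →
        W.valuation (lc (b j) (fun k => (v j k : ℂ)) / b j l) < 1 → False := by
    intro s
    induction s using Finset.induction_on with
    | empty => exact ⟨fun _ _ => 0, ∅, by simp, by simp⟩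
    | insert a s ha ih =>
      obtain ⟨v, S, hv, hS⟩ := ih
      choose Si Ti hTi hSi using fun i => pair_data htr (lc (b i) (fun k => (v i k : ℂ))) (b i) (b a)
      obtain ⟨w, hw1, hw2⟩ := exists_avoid (Finset.univ.biUnion Ti) (by
        intro z hz
        obtain ⟨i, _, hz⟩ := Finset.mem_biUnion.mp hz
        exact hTi i z hz) (b a) (hb a)
      set S' : Finset ℂ := S ∪ (Finset.univ.biUnion Si ∪
        (Finset.univ.biUnion Ti).image fun z => (∑ k, (w k : ℂ) * z k)⁻¹) with hS'
      have hne : ∀ i ∈ s, i ≠ a := fun i hi h => ha (h ▸ hi)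
      have hpair : ∀ W : ValuationSubring K, (∀ x ∈ S', algebraMap ℂ K x ∈ W) → ∀ i ∈ s, ∀ k l,
          b i k ≠ 0 → b a l ≠ 0 → (∀ m, b a m / b a l ∈ W) →
          W.valuation (lc (b i) (fun k => (v i k : ℂ)) / b i k) < 1 →
          W.valuation (lc (b a) (fun k => (w k : ℂ)) / b a l) < 1 → False := by
        intro W hW i hi k l hk hl hm h1 h2
        obtain ⟨z, hz, hzm⟩ := hSi i W (fun x hx => hW x (by
          rw [hS']
          exact Finset.mem_union_right _ (Finset.mem_union_left _ (Finset.mem_biUnion.mpr ⟨i, Finset.mem_univ _, hx⟩))))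
          (hv i hi) k l hk hl hm h1
        have hzT : z ∈ Finset.univ.biUnion Ti := Finset.mem_biUnion.mpr ⟨i, Finset.mem_univ _, hz⟩
        have h3 := lc_cong w hzm
        have h4 : W.valuation (algebraMap ℂ K (∑ k, (w k : ℂ) * z k)) < 1 := by
          have h5 : algebraMap ℂ K (∑ k, (w k : ℂ) * z k) = lc (b a) (fun k => (w k : ℂ)) / b a l -
              (lc (b a) (fun k => (w k : ℂ)) / b a l - algebraMap ℂ K (∑ k, (w k : ℂ) * z k)) := by ring
          rw [h5]
          exact W.valuation.map_sub_lt h2 h3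
        refine not_small (hw1 z hzT) (hW _ ?_) h4
        rw [hS']
        exact Finset.mem_union_right _ (Finset.mem_union_right _ (Finset.mem_image_of_mem _ hzT))
      refine ⟨Function.update v a w, S', ?_, ?_⟩
      · intro i hi
        rcases Finset.mem_insert.mp hi with rfl | hi
        · simpa using hw2
        · rw [Function.update_of_ne (hne i hi)]
          exact hv i hi
      · intro W hW i hi j hj hij k l hk hl hmk hml h1 h2
        rcases Finset.mem_insert.mp hi with hia | his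
        · rcases Finset.mem_insert.mp hj with hja | hjs
          · exact hij (hia.trans hja.symm)
          · rw [hia, Function.update_self] at h1
            rw [Function.update_of_ne (hne j hjs)] at h2
            rw [hia] at hk hmk
            exact hpair W hW j hjs l k hl hk hmk h2 h1
        · rw [Function.update_of_ne (hne i his)] at h1
          rcases Finset.mem_insert.mp hj with hja | hjs
          · rw [hja, Function.update_self] at h2
            rw [hja] at hl hml
            exact hpair W hW i his k l hk hl hml h1 h2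
          · rw [Function.update_of_ne (hne j hjs)] at h2
            exact hS W (fun x hx => hW x (Finset.mem_union_left _ hx)) i his j hjs hij k l hk hl hmk hml h1 h2
  obtain ⟨v, S, h1, h2⟩ := main Finset.univ
  exact ⟨v, S, fun i => h1 i (Finset.mem_univ _), fun W hW i j => h2 W hW i (Finset.mem_univ _) j (Finset.mem_univ _)⟩

/-- a place where no `l i` vanishes, also modulo `V` -/
theorem exists_unit_place (htr : Algebra.trdeg ℂ K = 1) (b : Fin n → Fin N → K) (l : Fin n → K)
    (hl : ∀ i, l i ≠ 0) : ∃ (S : Finset ℂ) (P : ValuationSubring K), (∀ c : ℂ, algebraMap ℂ K c ∈ P) ∧ P ≠ ⊤ ∧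
      ∀ (V : ValuationSubring ℂ) (W : ValuationSubring K), (∀ s ∈ S, algebraMap ℂ K s ∈ W) →
        (∀ (f : K) (c : ℂ), P.valuation (f - algebraMap ℂ K c) < 1 → (W.valuation f < 1 ↔ V.valuation c < 1)) →
        ∀ i k, b i k ≠ 0 → ¬ W.valuation (l i / b i k) < 1 := by
  classical
  obtain ⟨y, hy⟩ : ∃ y : K, Transcendental ℂ y := by
    by_contra hcon
    push Not at hcon
    have hA : Algebra.IsAlgebraic ℂ K := ⟨fun y => by
      have := hcon y
      rw [Transcendental, not_not] at this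
      exact this⟩
    rw [trdeg_eq_zero] at htr
    exact zero_ne_one htr
  have h1 : ∀ (i : Fin n) (k : Fin N), ∃ S Z : Finset ℂ, ∀ W : ValuationSubring K, (∀ s ∈ S, algebraMap ℂ K s ∈ W) →
      b i k ≠ 0 → W.valuation (l i / b i k) < 1 → y ∈ W → ∃ z ∈ Z, W.valuation (y - algebraMap ℂ K z) < 1 := by
    intro i k
    by_cases h0 : b i k = 0
    · exact ⟨∅, ∅, fun W _ h => absurd h0 h⟩
    · obtain ⟨S, Z, h⟩ := value_cert htr (div_ne_zero (hl i) h0) y
      exact ⟨S, Z, fun W hW _ h2 h3 => h W hW h2 h3⟩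
  choose S Z hSZ using h1
  set ZZ : Finset ℂ := Finset.univ.biUnion fun i => Finset.univ.biUnion fun k => Z i k with hZZ
  obtain ⟨v, hv⟩ : ∃ v : ℕ, (v : ℂ) ∉ ZZ := by
    by_contra hcon
    push Not at hcon
    exact Set.infinite_of_injective_forall_mem (f := fun t : ℕ => (t : ℂ)) Nat.cast_injective hcon ZZ.finite_toSet
  obtain ⟨P, hP, hPt, hPy⟩ := exists_place hy (v : ℂ)
  refine ⟨(Finset.univ.biUnion fun i => Finset.univ.biUnion fun k => S i k) ∪ ZZ.image (fun z => ((v : ℂ) - z)⁻¹),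
    P, hP, hPt, ?_⟩
  intro V W hW hcomp i k hk hlt
  have hyv : W.valuation (y - algebraMap ℂ K (v : ℂ)) < 1 := by
    rw [hcomp _ 0 (by rw [map_zero, sub_zero]; exact hPy), map_zero]
    exact zero_lt_one
  have hvW : algebraMap ℂ K (v : ℂ) ∈ W := by
    rw [map_natCast]
    exact natCast_mem W v
  have hyW : y ∈ W := by
    have := add_mem (mem_of_lt hyv) hvW
    rwa [sub_add_cancel] at this
  obtain ⟨z, hz, hyz⟩ := hSZ i k W (fun s hs => hW s (by
    refine Finset.mem_union_left _ ?_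
    simp only [Finset.mem_biUnion, Finset.mem_univ, true_and]
    exact ⟨i, k, hs⟩)) hk hlt hyW
  have hzZ : z ∈ ZZ := by
    rw [hZZ]
    simp only [Finset.mem_biUnion, Finset.mem_univ, true_and]
    exact ⟨i, k, hz⟩
  have hvz : (v : ℂ) - z ≠ 0 := by
    intro h0
    apply hv
    rw [sub_eq_zero.mp h0]
    exact hzZ
  refine not_small hvz (hW _ (Finset.mem_union_right _ (Finset.mem_image_of_mem _ hzZ))) ?_
  have h5 : algebraMap ℂ K ((v : ℂ) - z) = (y - algebraMap ℂ K z) - (y - algebraMap ℂ K (v : ℂ)) := by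
    rw [map_sub]; ring
  rw [h5]
  exact W.valuation.map_sub_lt hyz hyv

omit [Algebra ℂ K] in
/-- an index of largest value -/
lemma exists_top (W : ValuationSubring K) (b : Fin N → K) (hb : ∃ k, b k ≠ 0) :
    ∃ k, b k ≠ 0 ∧ ∀ m, b m / b k ∈ W := by
  obtain ⟨j, hj⟩ := hb
  have : Nonempty (Fin N) := ⟨j⟩
  obtain ⟨k, hk⟩ := Finite.exists_max fun k => W.valuation (b k)
  have hk0 : b k ≠ 0 := by
    intro h0
    have h1 := hk j
    rw [h0, map_zero, le_zero_iff, map_eq_zero] at h1
    exact hj h1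
  refine ⟨k, hk0, fun m => ?_⟩
  rw [← W.valuation_le_one_iff, map_div₀]
  have hpos : 0 < W.valuation (b k) := zero_lt_iff.mpr (by rwa [Ne, map_eq_zero])
  exact (div_le_one₀ hpos).mpr (hk m)

/-- the value of a ratio of members close to multiples of `l` where `l` is a unit -/
theorem rob_value (htr : Algebra.trdeg ℂ K = 1) {p : ℕ} (hp : p.Prime) {V : ValuationSubring ℂ}
    (hV : V.valuation (p : ℂ) < 1) (i : ℕ)
    {P W : ValuationSubring K} (hP : ∀ c : ℂ, algebraMap ℂ K c ∈ P) (hPt : P ≠ ⊤) (hWP : W ≤ P)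
    (hc : ∀ c : ℂ, algebraMap ℂ K c ∈ W ↔ c ∈ V)
    (hmem : ∀ (f : K) (c : ℂ), P.valuation (f - algebraMap ℂ K c) < 1 → (f ∈ W ↔ c ∈ V))
    (hlt : ∀ (f : K) (c : ℂ), P.valuation (f - algebraMap ℂ K c) < 1 → (W.valuation f < 1 ↔ V.valuation c < 1))
    (b : Fin N → K) {k : Fin N} (hk : b k ≠ 0) (hbk : ∀ m, b m / b k ∈ W) (v : Fin N → ℤ)
    (hu : ¬ W.valuation (lc b (fun k => (v k : ℂ)) / b k) < 1) (a a' : Fin N → ℂ)
    (ha : ∀ m, ∃ z ∈ V, a m = (1 + (p : ℂ) ^ (i + 2)) * v m + (p : ℂ) ^ (2 * n + 5) * z)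
    (ha' : ∀ m, ∃ z ∈ V, a' m = (p : ℂ) ^ (n + 3) * v m + (p : ℂ) ^ (2 * n + 5) * z) :
    lc b a' ≠ 0 ∧ ∃ x, P.valuation (lc b a / lc b a' - algebraMap ℂ K x) < 1 ∧ Rob V p n i x := by
  choose z hz hza using ha
  choose z' hz' hza' using ha'
  set u : K := lc b (fun k => (v k : ℂ)) / b k with hud
  set π : K := algebraMap ℂ K (p : ℂ) with hπ
  have hp0 : (p : ℂ) ≠ 0 := by exact_mod_cast hp.ne_zero
  have hπ0 : π ≠ 0 := by rw [hπ, Ne, map_eq_zero]; exact hp0
  have hπ1 : W.valuation π < 1 := by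
    rw [hπ, hlt _ (p : ℂ) (by rw [sub_self, map_zero]; exact zero_lt_one)]
    exact hV
  have hπW : π ∈ W := mem_of_lt hπ1
  have huW : u ∈ W := by
    rw [hud, lc_div]
    exact sum_mem fun m _ => mul_mem (int_mem W _) (hbk m)
  have hu1 : W.valuation u = 1 := le_antisymm ((W.valuation_le_one_iff _).mpr huW) (not_lt.mp hu)
  have hu0 : u ≠ 0 := by
    intro h0
    rw [h0, map_zero] at hu1
    exact zero_ne_one hu1
  have huiW : u⁻¹ ∈ W := by
    rw [← W.valuation_le_one_iff, map_inv₀, hu1, inv_one]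
  set A0 : ℂ := 1 + (p : ℂ) ^ (i + 2) with hA0
  have hA0v : V.valuation A0 = 1 := val_one_add' hV (by omega)
  have hA00 : A0 ≠ 0 := by
    intro h0
    rw [h0, map_zero] at hA0v
    exact zero_ne_one hA0v
  have hA0iV : A0⁻¹ ∈ V := by
    rw [← V.valuation_le_one_iff, map_inv₀, hA0v, inv_one]
  have hA0W : algebraMap ℂ K A0⁻¹ ∈ W := (hc _).mpr hA0iV
  have hAK0 : algebraMap ℂ K A0 ≠ 0 := by rw [Ne, map_eq_zero]; exact hA00
  set Z : K := ∑ m, algebraMap ℂ K (z m) * (b m / b k) with hZ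
  set Z' : K := ∑ m, algebraMap ℂ K (z' m) * (b m / b k) with hZ'
  have hZW : Z ∈ W := sum_mem fun m _ => mul_mem ((hc _).mpr (hz m)) (hbk m)
  have hZW' : Z' ∈ W := sum_mem fun m _ => mul_mem ((hc _).mpr (hz' m)) (hbk m)
  have eA : lc b a / b k = algebraMap ℂ K A0 * u + π ^ (2 * n + 5) * Z := by
    rw [lc_div, hud, lc_div, hZ, Finset.mul_sum, Finset.mul_sum, ← Finset.sum_add_distrib]
    refine Finset.sum_congr rfl fun m _ => ?_
    rw [hza m, map_add, map_mul, map_mul, map_pow, hA0, hπ]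
    ring
  have eB : lc b a' / b k = π ^ (n + 3) * u + π ^ (2 * n + 5) * Z' := by
    rw [lc_div, hud, lc_div, hZ', Finset.mul_sum, Finset.mul_sum, ← Finset.sum_add_distrib]
    refine Finset.sum_congr rfl fun m _ => ?_
    rw [hza' m, map_add, map_mul, map_mul, map_pow, map_pow, hπ]
    ring
  set y1 : K := Z * (algebraMap ℂ K A0⁻¹ * u⁻¹) with hy1
  set y2 : K := Z' * u⁻¹ with hy2
  have hy1W : y1 ∈ W := mul_mem hZW (mul_mem hA0W huiW)
  have hy2W : y2 ∈ W := mul_mem hZW' huiW
  set D : K := 1 + π ^ (n + 2) * y2 with hD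
  have hDv : W.valuation D = 1 := by
    rw [hD]
    refine W.valuation.map_one_add_of_lt ?_
    rw [mul_comm]
    refine val_mul_lt hy2W ?_
    rw [map_pow]
    exact pow_lt_one₀ zero_le hπ1 (by omega)
  have hD0 : D ≠ 0 := by
    intro h0
    rw [h0, map_zero] at hDv
    exact zero_ne_one hDv
  have hDW : D⁻¹ ∈ W := by
    rw [← W.valuation_le_one_iff, map_inv₀, hDv, inv_one]
  set w : K := (π ^ (n + 3) * y1 - y2) * D⁻¹ with hw
  have hwW : w ∈ W := mul_mem (sub_mem (mul_mem (pow_mem hπW _) hy1W) hy2W) hDW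
  have eA2 : lc b a / b k = algebraMap ℂ K A0 * u * (1 + π ^ (2 * n + 5) * y1) := by
    rw [eA, hy1, map_inv₀]
    field_simp
  have eB2 : lc b a' / b k = π ^ (n + 3) * u * D := by
    rw [eB, hD, hy2]
    have h6 : π ^ (2 * n + 5) = π ^ (n + 3) * π ^ (n + 2) := by rw [← pow_add]; congr 1; omega
    rw [h6]
    field_simp
  have hB0 : lc b a' ≠ 0 := by
    intro h0
    rw [h0, zero_div] at eB2
    exact mul_ne_zero (mul_ne_zero (pow_ne_zero _ hπ0) hu0) hD0 eB2.symm
  refine ⟨hB0, ?_⟩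
  have hDw : D * (1 + π ^ (n + 2) * w) = 1 + π ^ (2 * n + 5) * y1 := by
    have h6 : π ^ (2 * n + 5) = π ^ (n + 3) * π ^ (n + 2) := by rw [← pow_add]; congr 1; omega
    have h7 : D * w = π ^ (n + 3) * y1 - y2 := by
      rw [hw, mul_comm, mul_assoc, inv_mul_cancel₀ hD0, mul_one]
    calc D * (1 + π ^ (n + 2) * w) = D + π ^ (n + 2) * (D * w) := by ring
      _ = 1 + π ^ (2 * n + 5) * y1 := by rw [h7, h6, hD]; ring
  have eAB : lc b a / lc b a' = algebraMap ℂ K (A0 / (p : ℂ) ^ (n + 3)) * (1 + π ^ (n + 2) * w) := by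
    have h8 : lc b a / lc b a' = (lc b a / b k) / (lc b a' / b k) := by
      rw [div_div_div_cancel_right₀ hk]
    rw [h8, eA2, eB2, ← hDw, map_div₀, map_pow, ← hπ, div_mul_eq_mul_div,
      div_eq_div_iff (mul_ne_zero (mul_ne_zero (pow_ne_zero _ hπ0) hu0) hD0) (pow_ne_zero _ hπ0)]
    ring
  obtain ⟨s, hs⟩ := exists_value htr hP hPt (hWP hwW)
  have hsV : s ∈ V := (hmem w s hs).mp hwW
  refine ⟨A0 / (p : ℂ) ^ (n + 3) * (1 + (p : ℂ) ^ (n + 2) * s), ?_, s, hsV, by rw [hA0]⟩
  have h9 : lc b a / lc b a' - algebraMap ℂ K (A0 / (p : ℂ) ^ (n + 3) * (1 + (p : ℂ) ^ (n + 2) * s)) =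
      algebraMap ℂ K (A0 / (p : ℂ) ^ (n + 3) * (p : ℂ) ^ (n + 2)) * (w - algebraMap ℂ K s) := by
    rw [eAB]
    simp only [map_mul, map_add, map_one, map_pow, ← hπ]
    ring
  rw [h9]
  exact val_mul_lt (hP _) hs

/-- a point all of whose coordinates are close to the prescribed values is on no proper special subvariety -/
theorem not_proper {p : ℕ} (hp : p.Prime) {V : ValuationSubring ℂ} (hV : V.valuation (p : ℂ) < 1) {m : ℕ}
    (hm : m < n) (D : SpecialDatum n m) {x : Fin n → ℂ} (hx : x ∈ D.variety)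
    (hrob : ∀ i : Fin n, Rob V p n i (x i)) : False := by
  classical
  obtain ⟨τ, hτ⟩ := hx
  have hnone : ∀ i : Fin n, D.block i ≠ none := by
    intro i hb
    refine (hrob i).notMem hp hV ?_
    rw [hτ i]
    unfold SpecialDatum.coord
    rw [hb]
    exact mem_of_isIntegral V (jInv_isIntegral_of_isCM _ (D.cm_isCM i))
  have hsome : ∀ (i : Fin n) (k : Fin m), D.block i = some k → x i = jInv ((D.g i).map (algebraMap ℚ ℝ) • τ k) := by
    intro i k hk
    rw [hτ i]
    unfold SpecialDatum.coord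
    rw [hk]
  obtain ⟨i, j, hij, hf⟩ : ∃ i j, i ≠ j ∧ D.block i = D.block j := by
    by_contra hcon
    push Not at hcon
    have hinj : Function.Injective (fun i : Fin n => (D.block i).get (Option.isSome_iff_ne_none.mpr (hnone i))) := by
      intro i j h
      simp only at h
      by_contra hne
      apply hcon i j hne
      rw [← Option.some_get (Option.isSome_iff_ne_none.mpr (hnone i)),
        ← Option.some_get (Option.isSome_iff_ne_none.mpr (hnone j)), h]
    have := Fintype.card_le_of_injective _ hinj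
    simp at this
    omega
  obtain ⟨k, hk⟩ := Option.ne_none_iff_exists'.mp (hnone i)
  have hl : D.block j = some k := by rw [← hf, hk]
  have hxi := hrob i
  have hxj := hrob j
  rw [hsome i k hk] at hxi
  rw [hsome j k hl] at hxj
  rcases lt_or_gt_of_ne (fun h : (i : ℕ) = j => hij (Fin.ext h)) with h | h
  · exact not_isog_rob hp hV h j.2 (D.g_det i) (D.g_det j) (τ k) hxi hxj
  · exact not_isog_rob hp hV h i.2 (D.g_det j) (D.g_det i) (τ k) hxj hxi

end Pool.Agent.ZPRC
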