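import Mathlib
import Pool.Agent.ZPRC.Core

/-!
Points of curves in products of projective spaces, and their reductions modulo valuation rings of `ℂ`.
-/

set_option autoImplicit false

open Pool.Agent.Lib.ModularZP

namespace Pool.Agent.ZPRC

variable {K : Type*} [Field K] [Algebra ℂ K] {n N : ℕ}

/-- the points, in homogeneous coordinates, of the closure in `(ℙ^(N-1))ⁿ` of the point
`((b i 1 : ... : b i N))ᵢ` over `K` -/
def pts (b : Fin n → Fin N → K) : Set (Fin n → Fin N → ℂ) :=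
  {x | ∃ P : ValuationSubring K, (∀ c : ℂ, algebraMap ℂ K c ∈ P) ∧ P ≠ ⊤ ∧
    ∀ i, ∃ k, b i k ≠ 0 ∧ x i k ≠ 0 ∧ ∀ m, P.valuation (b i m / b i k - algebraMap ℂ K (x i m / x i k)) < 1}

/-- the homogeneous coordinates are in `V` and not all in its maximal ideal -/
def Nrm (V : ValuationSubring ℂ) (x : Fin n → Fin N → ℂ) : Prop :=
  ∀ i, (∀ m, x i m ∈ V) ∧ ∃ k, V.valuation (x i k) = 1

lemma int_mem' (V : ValuationSubring ℂ) (m : ℤ) : (m : ℂ) ∈ V := intCast_mem V m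

lemma val_div_unit {V : ValuationSubring ℂ} {y u : ℂ} (hu : V.valuation u = 1) :
    V.valuation (y / u) < 1 ↔ V.valuation y < 1 := by
  rw [map_div₀, hu, div_one]

/-- from a point to a composite place -/
theorem pts_place (htr : Algebra.trdeg ℂ K = 1) {V : ValuationSubring ℂ} {b : Fin n → Fin N → K}
    {x : Fin n → Fin N → ℂ} (hx : x ∈ pts b) (hn : Nrm V x) :
    ∃ (W : ValuationSubring K) (κ : Fin n → Fin N), (∀ c : ℂ, algebraMap ℂ K c ∈ W ↔ c ∈ V) ∧
      (∀ i, b i (κ i) ≠ 0) ∧ (∀ i m, b i m / b i (κ i) ∈ W) ∧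
      ∀ (i : Fin n) (v : Fin N → ℤ), W.valuation (lc (b i) (fun k => (v k : ℂ)) / b i (κ i)) < 1 ↔
        V.valuation (∑ k, (v k : ℂ) * x i k) < 1 := by
  obtain ⟨P, hP, hPt, hPx⟩ := hx
  obtain ⟨W, hWP, hc, hmem, hlt⟩ := exists_comp htr hP hPt V
  choose hxV κ hκ using hn
  have hval : ∀ i m, b i (κ i) ≠ 0 ∧ P.valuation (b i m / b i (κ i) - algebraMap ℂ K (x i m / x i (κ i))) < 1 := by
    intro i m
    obtain ⟨k, hk, hxk, h⟩ := hPx i
    have hxκ : x i (κ i) ≠ 0 := by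
      intro h0
      have := hκ i
      rw [h0, map_zero] at this
      exact zero_ne_one this
    have h1 := h (κ i)
    have h2 : x i (κ i) / x i k ≠ 0 := div_ne_zero hxκ hxk
    have hbκ : b i (κ i) ≠ 0 := by
      intro h0
      rw [h0, zero_div, zero_sub, Valuation.map_neg] at h1
      exact h2 (const_zero hP h1)
    refine ⟨hbκ, ?_⟩
    have h3 := value_inv hP h2 h1
    have h4 := (value_cg hP (h m)).mul (value_cg hP h3)
    have h5 : b i m / b i k * (b i (κ i) / b i k)⁻¹ = b i m / b i (κ i) := by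
      field_simp
    have h6 : algebraMap ℂ K (x i m / x i k) * algebraMap ℂ K (x i (κ i) / x i k)⁻¹ =
        algebraMap ℂ K (x i m / x i (κ i)) := by
      rw [← map_mul]
      congr 1
      field_simp
    rw [h5, h6] at h4
    exact h4.2.2
  refine ⟨W, κ, hc, fun i => (hval i (κ i)).1, ?_, ?_⟩
  · intro i m
    rw [hmem _ _ (hval i m).2, ← V.valuation_le_one_iff, map_div₀, hκ i, div_one, V.valuation_le_one_iff]
    exact hxV i m
  · intro i v
    have h1 : P.valuation (lc (b i) (fun k => (v k : ℂ)) / b i (κ i) -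
        algebraMap ℂ K ((∑ k, (v k : ℂ) * x i k) / x i (κ i))) < 1 := by
      have h2 := lc_cong (W := P) (b := b i) (j := κ i) (z := fun m => x i m / x i (κ i)) v (fun m => (hval i m).2)
      have h3 : (∑ k, (v k : ℂ) * x i k) / x i (κ i) = ∑ k, (v k : ℂ) * (x i k / x i (κ i)) := by
        rw [Finset.sum_div]
        exact Finset.sum_congr rfl fun k _ => mul_div_assoc _ _ _
      rw [h3]
      exact h2
    rw [hlt _ _ h1, val_div_unit (hκ i)]

/-- from a place to a point -/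
theorem place_pts (htr : Algebra.trdeg ℂ K = 1) (V : ValuationSubring ℂ) {b : Fin n → Fin N → K}
    (hb : ∀ i, ∃ k, b i k ≠ 0) {P : ValuationSubring K} (hP : ∀ c : ℂ, algebraMap ℂ K c ∈ P) (hPt : P ≠ ⊤) :
    ∃ (W : ValuationSubring K) (κ : Fin n → Fin N) (x : Fin n → Fin N → ℂ), W ≤ P ∧
      (∀ c : ℂ, algebraMap ℂ K c ∈ W ↔ c ∈ V) ∧
      (∀ (f : K) (c : ℂ), P.valuation (f - algebraMap ℂ K c) < 1 → (f ∈ W ↔ c ∈ V)) ∧
      (∀ (f : K) (c : ℂ), P.valuation (f - algebraMap ℂ K c) < 1 → (W.valuation f < 1 ↔ V.valuation c < 1)) ∧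
      (∀ i, b i (κ i) ≠ 0) ∧ (∀ i m, b i m / b i (κ i) ∈ W) ∧ x ∈ pts b ∧ Nrm V x ∧
      ∀ (i : Fin n) (v : Fin N → ℤ), W.valuation (lc (b i) (fun k => (v k : ℂ)) / b i (κ i)) < 1 ↔
        V.valuation (∑ k, (v k : ℂ) * x i k) < 1 := by
  obtain ⟨W, hWP, hc, hmem, hlt⟩ := exists_comp htr hP hPt V
  choose κ hκ hbk using fun i => exists_top W (b i) (hb i)
  choose x hx using fun i m => exists_value htr hP hPt (hWP (hbk i m))
  have hx1 : ∀ i, x i (κ i) = 1 := by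
    intro i
    refine value_unique hP (hx i (κ i)) ?_
    rw [div_self (hκ i), map_one, sub_self, map_zero]
    exact zero_lt_one
  refine ⟨W, κ, x, hWP, hc, hmem, hlt, hκ, hbk, ⟨P, hP, hPt, fun i => ⟨κ i, hκ i, ?_, fun m => ?_⟩⟩, ?_, ?_⟩
  · rw [hx1 i]; exact one_ne_zero
  · rw [hx1 i, div_one]; exact hx i m
  · intro i
    refine ⟨fun m => (hmem _ _ (hx i m)).mp (hbk i m), κ i, ?_⟩
    rw [hx1 i, map_one]
  · intro i v
    exact hlt _ _ (lc_cong (W := P) v (hx i))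

/-- integral members which do not vanish where a given member vanishes -/
theorem exists_aux (htr : Algebra.trdeg ℂ K = 1) (b : Fin n → Fin N → K) (hb : ∀ i, ∃ k, b i k ≠ 0)
    (l : Fin n → K) (hl : ∀ i, l i ≠ 0) :
    ∃ (w : Fin n → Fin N → ℤ) (S : Finset ℂ), 
      ∀ W : ValuationSubring K, (∀ s ∈ S, algebraMap ℂ K s ∈ W) → ∀ i j, ∀ k m,
        b i k ≠ 0 → b j m ≠ 0 → (∀ q, b j q / b j m ∈ W) →
        W.valuation (l i / b i k) < 1 →
        W.valuation (lc (b j) (fun k => (w j k : ℂ)) / b j m) < 1 → False := by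
  classical
  choose Si Ti hTi hSi using fun i j => pair_data htr (l i) (b i) (b j)
  choose w hw1 hw2 using fun j => exists_avoid (Finset.univ.biUnion fun i => Ti i j) (by
    intro z hz
    obtain ⟨i, _, hz⟩ := Finset.mem_biUnion.mp hz
    exact hTi i j z hz) (b j) (hb j)
  refine ⟨w, (Finset.univ.biUnion fun i => Finset.univ.biUnion fun j => Si i j) ∪
    (Finset.univ.biUnion fun j => (Finset.univ.biUnion fun i => Ti i j).image fun z => (∑ k, (w j k : ℂ) * z k)⁻¹), ?_⟩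
  intro W hW i j k m hk hm hq h1 h2
  obtain ⟨z, hz, hzm⟩ := hSi i j W (fun x hx => hW x (by
    refine Finset.mem_union_left _ ?_
    simp only [Finset.mem_biUnion, Finset.mem_univ, true_and]
    exact ⟨i, j, hx⟩)) (hl i) k m hk hm hq h1
  have hzT : z ∈ Finset.univ.biUnion fun i => Ti i j := Finset.mem_biUnion.mpr ⟨i, Finset.mem_univ _, hz⟩
  have h3 := lc_cong (w j) hzm
  have h4 : W.valuation (algebraMap ℂ K (∑ k, (w j k : ℂ) * z k)) < 1 := by
    have h5 : algebraMap ℂ K (∑ k, (w j k : ℂ) * z k) = lc (b j) (fun k => (w j k : ℂ)) / b j m -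
        (lc (b j) (fun k => (w j k : ℂ)) / b j m - algebraMap ℂ K (∑ k, (w j k : ℂ) * z k)) := by ring
    rw [h5]
    exact W.valuation.map_sub_lt h2 h3
  refine not_small (hw1 j z hzT) (hW _ ?_) h4
  refine Finset.mem_union_right _ (Finset.mem_biUnion.mpr ⟨j, Finset.mem_univ _, Finset.mem_image_of_mem _ hzT⟩)

/-- `V`-integral points of `X_b`: what is used of the curve -/
def Good (V : ValuationSubring ℂ) (v w : Fin n → Fin N → ℤ) (X : Set (Fin n → Fin N → ℂ)) : Prop :=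
  ∀ x ∈ X, Nrm V x →
    (∀ i j, i ≠ j → V.valuation (∑ k, (v i k : ℂ) * x i k) < 1 → V.valuation (∑ k, (v j k : ℂ) * x j k) < 1 → False) ∧
    ∀ i j, V.valuation (∑ k, (v i k : ℂ) * x i k) < 1 → V.valuation (∑ k, (w j k : ℂ) * x j k) < 1 → False

theorem exists_Good (htr : Algebra.trdeg ℂ K = 1) (b : Fin n → Fin N → K) (hb : ∀ i, ∃ k, b i k ≠ 0) :
    ∃ (v w : Fin n → Fin N → ℤ) (S : Finset ℂ), ∀ V : ValuationSubring ℂ, (∀ s ∈ S, s ∈ V) → Good V v w (pts b) := by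
  classical
  obtain ⟨v, S1, hv0, hS1⟩ := exists_lam htr b hb
  obtain ⟨w, S2, hS2⟩ := exists_aux htr b hb (fun i => lc (b i) (fun k => (v i k : ℂ))) hv0
  refine ⟨v, w, S1 ∪ S2, fun V hS x hx hn => ?_⟩
  obtain ⟨W, κ, hc, hκ, hbk, hiff⟩ := pts_place htr hx hn
  refine ⟨fun i j hij h1 h2 => ?_, fun i j h1 h2 => ?_⟩
  · exact hS1 W (fun s hs => (hc s).mpr (hS s (Finset.mem_union_left _ hs))) i j hij (κ i) (κ j) (hκ i) (hκ j)
      (hbk i) (hbk j) ((hiff i (v i)).mpr h1) ((hiff j (v j)).mpr h2)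
  · exact hS2 W (fun s hs => (hc s).mpr (hS s (Finset.mem_union_right _ hs))) i j (κ i) (κ j) (hκ i) (hκ j)
      (hbk j) ((hiff i (v i)).mpr h1) ((hiff j (w j)).mpr h2)

/-- every `V`-integral point of `X'` is congruent to a `V`-integral point of `X` modulo the maximal
ideal of `V`: the reduction of `X'` is contained in the reduction of `X` -/
def RedLE (V : ValuationSubring ℂ) (X' X : Set (Fin n → Fin N → ℂ)) : Prop :=
  ∀ x' ∈ X', Nrm V x' → ∃ x ∈ X, ∀ i m, x i m ∈ V ∧ V.valuation (x' i m - x i m) < 1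

lemma RedLE.refl (V : ValuationSubring ℂ) (X : Set (Fin n → Fin N → ℂ)) : RedLE V X X := by
  intro x hx hn
  refine ⟨x, hx, fun i m => ⟨(hn i).1 m, ?_⟩⟩
  rw [sub_self, map_zero]
  exact zero_lt_one

lemma Good.mono {V : ValuationSubring ℂ} {v w : Fin n → Fin N → ℤ} {X' X : Set (Fin n → Fin N → ℂ)}
    (h : Good V v w X) (hr : RedLE V X' X) : Good V v w X' := by
  intro x' hx' hn'
  obtain ⟨x, hx, hxx⟩ := hr x' hx' hn'
  have hn : Nrm V x := by
    intro i
    refine ⟨fun m => (hxx i m).1, ?_⟩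
    obtain ⟨k, hk⟩ := (hn' i).2
    refine ⟨k, ?_⟩
    have h1 : x i k = x' i k - (x' i k - x i k) := by ring
    rw [h1, V.valuation.map_sub_eq_of_lt_left (by rw [hk]; exact (hxx i k).2), hk]
  have hsm : ∀ (u : Fin N → ℤ) (i : Fin n), V.valuation (∑ k, (u k : ℂ) * x' i k) < 1 →
      V.valuation (∑ k, (u k : ℂ) * x i k) < 1 := by
    intro u i h1
    have h2 : ∑ k, (u k : ℂ) * x i k = ∑ k, (u k : ℂ) * x' i k - ∑ k, (u k : ℂ) * (x' i k - x i k) := by
      rw [← Finset.sum_sub_distrib]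
      exact Finset.sum_congr rfl fun k _ => by ring
    rw [h2]
    refine V.valuation.map_sub_lt h1 (V.valuation.map_sum_lt one_ne_zero fun k _ => ?_)
    exact val_mul_lt (int_mem' V _) (hxx i k).2
  obtain ⟨h1, h2⟩ := h x hx hn
  exact ⟨fun i j hij a b => h1 i j hij (hsm _ _ a) (hsm _ _ b), fun i j a b => h2 i j (hsm _ _ a) (hsm _ _ b)⟩

/-- the criterion -/
theorem crit (htr : Algebra.trdeg ℂ K = 1) {p : ℕ} (hp : p.Prime) {V : ValuationSubring ℂ}
    (hV : V.valuation (p : ℂ) < 1) {v w : Fin n → Fin N → ℤ} (b : Fin n → Fin N → K)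
    (hb : ∀ i, ∃ k, b i k ≠ 0) (hne : ∃ i k l, Transcendental ℂ (b i k / b i l)) (hg : Good V v w (pts b))
    (a a' : Fin n → Fin N → ℂ)
    (ha : ∀ (i : Fin n) k, ∃ z ∈ V, a i k = (1 + (p : ℂ) ^ ((i : ℕ) + 2)) * v i k + (p : ℂ) ^ (2 * n + 5) * z)
    (ha' : ∀ (i : Fin n) k, ∃ z ∈ V, a' i k = (p : ℂ) ^ (n + 3) * v i k + (p : ℂ) ^ (2 * n + 5) * z) :
    (∀ i, lc (b i) (a' i) ≠ 0) ∧ HodgeGeneric (placeCurve fun i => lc (b i) (a i) / lc (b i) (a' i)) ∧
      atyp (placeCurve fun i => lc (b i) (a i) / lc (b i) (a' i)) = ∅ := by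
  classical
  have hp0 : (p : ℂ) ≠ 0 := by exact_mod_cast hp.ne_zero
  -- a place where all the members are units
  have hU : ∃ P : ValuationSubring K, (∀ c : ℂ, algebraMap ℂ K c ∈ P) ∧ P ≠ ⊤ ∧
      ∀ i, lc (b i) (a' i) ≠ 0 ∧ ∃ x, P.valuation (lc (b i) (a i) / lc (b i) (a' i) - algebraMap ℂ K x) < 1 ∧
        Rob V p n i x := by
    obtain ⟨i₀, k₀, l₀, htt⟩ := hne
    by_contra hcon
    have hsmall : ∀ P : ValuationSubring K, (∀ c : ℂ, algebraMap ℂ K c ∈ P) → P ≠ ⊤ →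
        lc (b i₀) (fun k => (w i₀ k : ℂ)) ≠ 0 ∧
        ∀ (m : Fin N) (y : ℂ), P.valuation (b i₀ m / lc (b i₀) (fun k => (w i₀ k : ℂ)) - algebraMap ℂ K y) < 1 →
          y ∈ V := by
      intro P hP hPt
      obtain ⟨W, κ, x, hWP, hc, hmem, hlt, hκ, hbk, hx, hn, hiff⟩ := place_pts htr V hb hP hPt
      obtain ⟨i, hi⟩ : ∃ i, W.valuation (lc (b i) (fun k => (v i k : ℂ)) / b i (κ i)) < 1 := by
        by_contra hno
        push Not at hno
        refine hcon ⟨P, hP, hPt, fun i => ?_⟩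
        exact rob_value htr hp hV i hP hPt hWP hc hmem hlt (b i) (hκ i) (hbk i) (v i) (not_lt.mpr (hno i))
          _ _ (ha i) (ha' i)
      have hnw : ¬ W.valuation (lc (b i₀) (fun k => (w i₀ k : ℂ)) / b i₀ (κ i₀)) < 1 := by
        intro h1
        exact (hg x hx hn).2 i i₀ ((hiff i (v i)).mp hi) ((hiff i₀ (w i₀)).mp h1)
      have hwW : lc (b i₀) (fun k => (w i₀ k : ℂ)) / b i₀ (κ i₀) ∈ W := by
        rw [lc_div]
        exact sum_mem fun m _ => mul_mem (int_mem W _) (hbk i₀ m)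
      have hw1 : W.valuation (lc (b i₀) (fun k => (w i₀ k : ℂ)) / b i₀ (κ i₀)) = 1 :=
        le_antisymm ((W.valuation_le_one_iff _).mpr hwW) (not_lt.mp hnw)
      have hw0 : lc (b i₀) (fun k => (w i₀ k : ℂ)) ≠ 0 := by
        intro h0
        rw [h0, zero_div, map_zero] at hw1
        exact zero_ne_one hw1
      refine ⟨hw0, fun m y hy => (hmem _ _ hy).mp ?_⟩
      have h2 : b i₀ m / lc (b i₀) (fun k => (w i₀ k : ℂ)) =
          (b i₀ m / b i₀ (κ i₀)) / (lc (b i₀) (fun k => (w i₀ k : ℂ)) / b i₀ (κ i₀)) := by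
        rw [div_div_div_cancel_right₀ (hκ i₀)]
      rw [h2, ← W.valuation_le_one_iff, map_div₀, hw1, div_one, W.valuation_le_one_iff]
      exact hbk i₀ m
    have halg : ∀ m, IsAlgebraic ℂ (b i₀ m / lc (b i₀) (fun k => (w i₀ k : ℂ))) := by
      intro m
      by_contra hnalg
      obtain ⟨P, hP, hPt, hPy⟩ := exists_place (K := K) hnalg ((p : ℂ)⁻¹)
      have h1 := (hsmall P hP hPt).2 m _ hPy
      have h2 := val_mul_lt h1 hV
      rw [inv_mul_cancel₀ hp0, map_one] at h2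
      exact lt_irrefl _ h2
    obtain ⟨P, hP, hPt, _⟩ := exists_place (K := K) htt 0
    have hw0 := (hsmall P hP hPt).1
    apply htt
    have h3 : b i₀ k₀ / b i₀ l₀ = (b i₀ k₀ / lc (b i₀) (fun k => (w i₀ k : ℂ))) *
        (b i₀ l₀ / lc (b i₀) (fun k => (w i₀ k : ℂ)))⁻¹ := by
      rw [← div_eq_mul_inv, div_div_div_cancel_right₀ hw0]
    rw [h3]
    exact (halg k₀).mul (halg l₀).inv
  obtain ⟨P₀, hP₀, hPt₀, hpt⟩ := hU
  choose hB x₀ hx₀ hrob₀ using hpt
  have hx₀mem : x₀ ∈ placeCurve fun i => lc (b i) (a i) / lc (b i) (a' i) := ⟨P₀, hP₀, hPt₀, hx₀⟩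
  refine ⟨hB, ?_, ?_⟩
  · intro m D hm hsub
    exact not_proper hp hV hm D (hsub hx₀mem) hrob₀
  · rw [Set.eq_empty_iff_forall_notMem]
    rintro x ⟨⟨P, hP, hPt, hx⟩, m, D, hm, hxD⟩
    obtain ⟨W, κ, y, hWP, hc, hmem, hlt, hκ, hbk, hy, hn, hiff⟩ := place_pts htr V hb hP hPt
    have hrob : ∀ i, ¬ W.valuation (lc (b i) (fun k => (v i k : ℂ)) / b i (κ i)) < 1 → Rob V p n i (x i) := by
      intro i hi
      obtain ⟨_, z, hz1, hz2⟩ := rob_value htr hp hV i hP hPt hWP hc hmem hlt (b i) (hκ i) (hbk i) (v i)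
        hi _ _ (ha i) (ha' i)
      have h1 : x i = z := value_unique hP (hx i) hz1
      rw [h1]
      exact hz2
    refine not_special hp hV hm D hxD fun i j hij => ?_
    by_contra hcon
    push Not at hcon
    refine (hg y hy hn).1 i j hij ((hiff i (v i)).mp ?_) ((hiff j (v j)).mp ?_)
    · by_contra h1
      exact hcon.1 (hrob i h1)
    · by_contra h1
      exact hcon.2 (hrob j h1)

end Pool.Agent.ZPRC
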